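import Mathlib

/-!
# Undistorted copies of Hamming cubes in dense subsets of Hamming cubes

`Emb(1, δ, k) ≤ 1024 k (2 ^ k log₂ (2 / δ) + 2)`; hence `Emb(1, δ, k) ≤ e ^ (C k) log (1 / δ)`.

The proof uses the averaging operator over the pairs of points at Hamming distance exactly `r` in
`{0,1} ^ n`, `n = 1024 r`, `r` even; its eigenvalues are values of Krawtchouk polynomials and are
at least `- 2 ^ (-r)`.
-/

set_option autoImplicit false

open Finset Polynomial

namespace Pool.Agent.Results.MP_c810be_co.SingleExponential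

/-! ### Krawtchouk polynomials -/

/-- The generating polynomial `(1 - X) ^ w (1 + X) ^ v`. -/
noncomputable def P (w v : ℕ) : ℝ[X] := (1 - X) ^ w * (1 + X) ^ v

theorem P_deriv (w v : ℕ) :
    (1 - X ^ 2) * derivative (P w v) = (C ((v : ℝ) - w) - C ((w : ℝ) + v) * X) * P w v := by
  have h1 : (1 - X) * derivative ((1 - X : ℝ[X]) ^ w) = - (C (w : ℝ)) * (1 - X) ^ w := by
    rcases Nat.eq_zero_or_pos w with h | h
    · subst h; simp
    · rw [derivative_pow]
      have : (1 - X : ℝ[X]) ^ w = (1 - X) ^ (w - 1) * (1 - X) := by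
        rw [← pow_succ]; congr 1; omega
      rw [this]
      simp
      ring
  have h2 : (1 + X) * derivative ((1 + X : ℝ[X]) ^ v) = C (v : ℝ) * (1 + X) ^ v := by
    rcases Nat.eq_zero_or_pos v with h | h
    · subst h; simp
    · rw [derivative_pow]
      have : (1 + X : ℝ[X]) ^ v = (1 + X) ^ (v - 1) * (1 + X) := by
        rw [← pow_succ]; congr 1; omega
      rw [this]
      simp
      ring
  unfold P
  rw [derivative_mul, C_sub, C_add]
  linear_combination (1 + X) ^ v * (1 + X) * h1 + (1 - X) ^ w * (1 - X) * h2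

theorem P_rec (w v j : ℕ) : ((j : ℝ) + 2) * (P w v).coeff (j + 2) =
    ((v : ℝ) - w) * (P w v).coeff (j + 1) - ((w : ℝ) + v - j) * (P w v).coeff j := by
  have h := congrArg (fun p => p.coeff (j + 1)) (P_deriv w v)
  simp only [sub_mul, one_mul, coeff_sub, coeff_derivative, mul_assoc, coeff_C_mul,
    coeff_X_mul] at h
  have h2 : (X ^ 2 * derivative (P w v)).coeff (j + 1) = j * (P w v).coeff j := by
    rcases Nat.eq_zero_or_pos j with h | h
    · subst h
      rw [coeff_X_pow_mul']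
      simp
    · rw [coeff_X_pow_mul', if_pos (by omega), coeff_derivative]
      have e : j + 1 - 2 + 1 = j := by omega
      have e2 : ((j + 1 - 2 : ℕ) : ℝ) = (j : ℝ) - 1 := by
        have : j + 1 - 2 = j - 1 := by omega
        rw [this, Nat.cast_sub h]; simp
      rw [e, e2]
      ring
  rw [h2] at h
  have e3 : j + 1 + 1 = j + 2 := rfl
  rw [e3] at h
  push_cast at h
  linarith

theorem P_zero (w v : ℕ) : (P w v).coeff 0 = 1 := by
  unfold P
  rw [coeff_zero_eq_eval_zero]
  simp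

theorem P_one (w v : ℕ) : (P w v).coeff 1 = (v : ℝ) - w := by
  have h := congrArg (fun p => p.coeff 0) (P_deriv w v)
  simp only [sub_mul, one_mul, coeff_sub, coeff_derivative, mul_assoc, coeff_C_mul] at h
  rw [P_zero] at h
  simp at h
  linarith

/-- positivity away from the middle -/
theorem P_pos (w v r : ℕ) (hr : 1 ≤ r) (hwv : 1 ≤ w + v) (hx : w ≤ v)
    (h : 4 * (r : ℝ) * (w + v) ≤ ((v : ℝ) - w) ^ 2) : ∀ j : ℕ, j + 1 ≤ r →
    0 < (P w v).coeff j ∧ ((v : ℝ) - w) * (P w v).coeff j ≤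
      2 * ((j : ℝ) + 1) * (P w v).coeff (j + 1) ∧ 0 < (P w v).coeff (j + 1) := by
  have hrR : (1 : ℝ) ≤ r := by exact_mod_cast hr
  have hwvR : (1 : ℝ) ≤ (w : ℝ) + v := by exact_mod_cast hwv
  have hx0 : (0 : ℝ) ≤ (v : ℝ) - w := by
    have : (w : ℝ) ≤ v := by exact_mod_cast hx
    linarith
  have hxpos : (0 : ℝ) < (v : ℝ) - w := by
    rcases hx0.lt_or_eq with h1 | h1
    · exact h1
    · rw [← h1] at h
      nlinarith
  intro j
  induction j with
  | zero =>
    intro _
    rw [P_zero, P_one]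
    refine ⟨one_pos, ?_, hxpos⟩
    push_cast
    linarith
  | succ j ih =>
    intro hj
    obtain ⟨h1, h2, h3⟩ := ih (by omega)
    refine ⟨h3, ?_⟩
    have hrec := P_rec w v j
    have hjR : ((j : ℝ) + 1) ≤ r := by
      have : j + 1 ≤ r := by omega
      exact_mod_cast this
    have hj0 : (0 : ℝ) ≤ j := Nat.cast_nonneg j
    -- `(x / 2) p_{j+1} ≥ (n - j) p_j`
    have key : ((w : ℝ) + v - j) * (P w v).coeff j ≤ ((v : ℝ) - w) / 2 * (P w v).coeff (j + 1) := by
      have e1 : ((v : ℝ) - w) ^ 2 * (P w v).coeff j ≤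
          2 * ((j : ℝ) + 1) * (((v : ℝ) - w) * (P w v).coeff (j + 1)) := by
        have := mul_le_mul_of_nonneg_left h2 hx0
        nlinarith
      have e2 : 4 * ((j : ℝ) + 1) * ((w : ℝ) + v - j) ≤ ((v : ℝ) - w) ^ 2 := by
        nlinarith
      have e3 := mul_le_mul_of_nonneg_right e2 h1.le
      have e4 : 4 * ((j : ℝ) + 1) * (((w : ℝ) + v - j) * (P w v).coeff j) ≤
          4 * ((j : ℝ) + 1) * (((v : ℝ) - w) / 2 * (P w v).coeff (j + 1)) := by
        nlinarith
      exact le_of_mul_le_mul_left e4 (by positivity)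
    have e5 : ((v : ℝ) - w) * (P w v).coeff (j + 1) ≤
        2 * (((j : ℕ) : ℝ) + 1 + 1) * (P w v).coeff (j + 2) := by
      nlinarith
    constructor
    · push_cast
      exact e5
    · have e6 : 0 < 2 * (((j : ℕ) : ℝ) + 1 + 1) * (P w v).coeff (j + 2) :=
        lt_of_lt_of_le (by positivity) e5
      by_contra hcon
      push Not at hcon
      have : 2 * (((j : ℕ) : ℝ) + 1 + 1) * (P w v).coeff (j + 2) ≤ 0 := by
        apply mul_nonpos_of_nonneg_of_nonpos (by positivity) hcon
      linarith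

theorem P_coeff_pos (w v r : ℕ) (hr : 1 ≤ r) (hwv : 1 ≤ w + v) (hx : w ≤ v)
    (h : 4 * (r : ℝ) * (w + v) ≤ ((v : ℝ) - w) ^ 2) : 0 < (P w v).coeff r := by
  have := P_pos w v r hr hwv hx h (r - 1) (by omega)
  have e : r - 1 + 1 = r := by omega
  rw [e] at this
  exact this.2.2

/-- Coefficientwise domination. -/
def Dom (A B : ℝ[X]) : Prop := ∀ j, |A.coeff j| ≤ B.coeff j

theorem Dom.mul {A B A' B' : ℝ[X]} (h : Dom A B) (h' : Dom A' B') : Dom (A * A') (B * B') := by
  intro j
  rw [coeff_mul, coeff_mul]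
  refine (abs_sum_le_sum_abs _ _).trans (sum_le_sum fun x _ => ?_)
  rw [abs_mul]
  exact mul_le_mul (h _) (h' _) (abs_nonneg _) ((abs_nonneg _).trans (h _))

theorem Dom.pow {A B : ℝ[X]} (h : Dom A B) (m : ℕ) : Dom (A ^ m) (B ^ m) := by
  induction m with
  | zero =>
    intro j
    rw [pow_zero, pow_zero, coeff_one]
    split_ifs <;> simp
  | succ m ih =>
    rw [pow_succ, pow_succ]
    exact ih.mul h

theorem Dom.coeff_le {A B : ℝ[X]} (h : Dom A B) (j : ℕ) (ρ : ℝ) (hρ : 0 < ρ) :
    |A.coeff j| * ρ ^ j ≤ B.eval ρ := by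
  refine (mul_le_mul_of_nonneg_right (h j) (by positivity)).trans ?_
  rw [eval_eq_sum_range]
  by_cases hj : j ≤ B.natDegree
  · exact single_le_sum (f := fun i => B.coeff i * ρ ^ i)
      (fun i _ => mul_nonneg ((abs_nonneg _).trans (h i)) (by positivity))
      (mem_range.2 (by omega))
  · rw [coeff_eq_zero_of_natDegree_lt (by omega), zero_mul]
    exact sum_nonneg fun i _ => mul_nonneg ((abs_nonneg _).trans (h i)) (by positivity)

theorem P_abs_le (w x r : ℕ) (ρ : ℝ) (hρ : 0 < ρ) :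
    |(P w (w + x)).coeff r| * ρ ^ r ≤ (1 + ρ ^ 2) ^ w * (1 + ρ) ^ x := by
  have e : P w (w + x) = (1 - X ^ 2) ^ w * (1 + X) ^ x := by
    unfold P
    have : (1 - X ^ 2 : ℝ[X]) = (1 - X) * (1 + X) := by ring
    rw [this, mul_pow, pow_add]
    ring
  have d1 : Dom (1 - X ^ 2 : ℝ[X]) (1 + X ^ 2) := by
    intro j
    rw [coeff_sub, coeff_add, coeff_one, coeff_X_pow]
    split_ifs <;> simp
  have d2 : Dom (1 + X : ℝ[X]) (1 + X) := by
    intro j
    rw [coeff_add, coeff_one, coeff_X]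
    have : (0 : ℝ) ≤ (if j = 0 then 1 else 0) + (if 1 = j then 1 else 0) := by positivity
    rw [abs_of_nonneg this]
  rw [e]
  refine ((d1.pow w).mul (d2.pow x)).coeff_le r ρ hρ |>.trans (le_of_eq ?_)
  simp

/-- the parity symmetry -/
theorem P_symm (w v r : ℕ) (hr : Even r) : (P w v).coeff r = (P v w).coeff r := by
  have h : (P w v).comp (-X) = P v w := by
    unfold P
    simp only [mul_comp, pow_comp, sub_comp, add_comp, one_comp, X_comp]
    rw [sub_neg_eq_add, ← sub_eq_add_neg]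
    ring
  have h2 : (-X : ℝ[X]) = C (-1) * X := by simp
  rw [← h, h2, comp_C_mul_X_coeff, hr.neg_one_pow, mul_one]

theorem pow_le_choose (q r : ℕ) (hq : 1 ≤ q) : q ^ r ≤ (q * r).choose r := by
  induction r with
  | zero => simp
  | succ r ih =>
    have h1 := Nat.add_one_mul_choose_eq (q * (r + 1) - 1) r
    have h2 : q * (r + 1) - 1 + 1 = q * (r + 1) := by
      have : 0 < q * (r + 1) := by positivity
      omega
    rw [h2] at h1
    have h3 : (q * (r + 1)).choose (r + 1) = q * (q * (r + 1) - 1).choose r := by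
      have h4 : (r + 1) * (q * (r + 1)).choose (r + 1)
          = (r + 1) * (q * (q * (r + 1) - 1).choose r) := by
        rw [mul_comm, ← h1]; ring
      exact Nat.eq_of_mul_eq_mul_left (by omega) h4
    rw [h3, pow_succ, mul_comm]
    refine Nat.mul_le_mul_left _ (ih.trans (Nat.choose_le_choose _ ?_))
    have : q * (r + 1) = q * r + q := by ring
    omega

/-- the lower bound for the coefficients -/
theorem coeff_ge (w v r : ℕ) (hr : 1 ≤ r) (hev : Even r) (hwv : w + v = 1024 * r) :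
    -(((1024 * r).choose r : ℝ) / 2 ^ r) ≤ (P w v).coeff r := by
  wlog hle : w ≤ v generalizing w v
  · rw [P_symm w v r hev]
    exact this v w (by omega) (by omega)
  have hwvR : (w : ℝ) + v = 1024 * r := by exact_mod_cast hwv
  by_cases h : 4 * (r : ℝ) * (w + v) ≤ ((v : ℝ) - w) ^ 2
  · have := P_coeff_pos w v r hr (by omega) hle h
    refine le_trans ?_ this.le
    rw [neg_nonpos]
    positivity
  · push Not at h
    obtain ⟨x, rfl⟩ := Nat.exists_eq_add_of_le hle
    have hrR : (1 : ℝ) ≤ r := by exact_mod_cast hr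
    have hx : x ≤ 64 * r := by
      by_contra hcon
      push Not at hcon
      have h1 : (64 * (r : ℝ)) ≤ x := by exact_mod_cast hcon.le
      rw [hwvR] at h
      push_cast at h
      nlinarith
    have hw : w ≤ 512 * r := by omega
    have hb := P_abs_le w x r (1 / 32) (by norm_num)
    have h2 : (1 + (1 / 32 : ℝ) ^ 2) ^ w ≤ (1 + (1 / 32 : ℝ) ^ 2) ^ (512 * r) :=
      pow_le_pow_right₀ (by norm_num) hw
    have h3 : (1 + (1 / 32 : ℝ)) ^ x ≤ (1 + (1 / 32 : ℝ)) ^ (64 * r) :=
      pow_le_pow_right₀ (by norm_num) hx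
    have h4 : (1 + (1 / 32 : ℝ) ^ 2) ^ (512 * r) * (1 + (1 / 32 : ℝ)) ^ (64 * r) ≤ 16 ^ r := by
      rw [pow_mul, pow_mul, ← mul_pow]
      apply pow_le_pow_left₀ (by positivity)
      have s1 : (1 + (1 / 32 : ℝ) ^ 2) ^ 16 ≤ 1.0158 := by norm_num
      have s2 : ((1 + (1 / 32 : ℝ) ^ 2) ^ 16) ^ 16 ≤ 1.2852 :=
        (pow_le_pow_left₀ (by positivity) s1 16).trans (by norm_num)
      have s3 : (((1 + (1 / 32 : ℝ) ^ 2) ^ 16) ^ 16) ^ 2 ≤ 1.652 :=
        (pow_le_pow_left₀ (by positivity) s2 2).trans (by norm_num)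
      have s4 : (1 + (1 / 32 : ℝ) ^ 2) ^ 512 = (((1 + (1 / 32 : ℝ) ^ 2) ^ 16) ^ 16) ^ 2 := by
        rw [← pow_mul, ← pow_mul]
      have s5 : (1 + (1 / 32 : ℝ)) ^ 64 ≤ 7.17 := by norm_num
      rw [s4]
      calc (((1 + (1 / 32 : ℝ) ^ 2) ^ 16) ^ 16) ^ 2 * (1 + (1 / 32 : ℝ)) ^ 64 ≤ 1.652 * 7.17 :=
            mul_le_mul s3 s5 (by positivity) (by positivity)
        _ ≤ 16 := by norm_num
    have h5 : |(P w (w + x)).coeff r| ≤ 512 ^ r := by
      have e1 : |(P w (w + x)).coeff r| * (1 / 32) ^ r ≤ 16 ^ r := by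
        refine hb.trans (le_trans ?_ h4)
        exact mul_le_mul h2 h3 (by positivity) (by positivity)
      have e2 : |(P w (w + x)).coeff r| = |(P w (w + x)).coeff r| * (1 / 32) ^ r * 32 ^ r := by
        rw [mul_assoc, ← mul_pow]; norm_num
      rw [e2]
      calc |(P w (w + x)).coeff r| * (1 / 32) ^ r * 32 ^ r ≤ 16 ^ r * 32 ^ r := by
            apply mul_le_mul_of_nonneg_right e1 (by positivity)
        _ = 512 ^ r := by rw [← mul_pow]; norm_num
    have h6 : (512 : ℝ) ^ r ≤ ((1024 * r).choose r : ℝ) / 2 ^ r := by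
      rw [le_div_iff₀ (by positivity), ← mul_pow]
      have := pow_le_choose 1024 r (by norm_num)
      have h7 : ((1024 ^ r : ℕ) : ℝ) ≤ ((1024 * r).choose r : ℝ) := by exact_mod_cast this
      push_cast at h7
      norm_num
      exact h7
    have h8 := neg_abs_le ((P w (w + x)).coeff r)
    linarith

/-! ### Walsh functions -/

/-- The Walsh function of `S` at the point `a` (points of `{0,1} ^ n` are subsets of `Fin n`). -/
noncomputable def W {n : ℕ} (S a : Finset (Fin n)) : ℝ := ∏ i ∈ S, if i ∈ a then (-1 : ℝ) else 1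

theorem W_comm {n : ℕ} (S a : Finset (Fin n)) : W S a = W a S := by
  unfold W
  rw [prod_ite_mem, prod_ite_mem, inter_comm]

theorem W_symmDiff {n : ℕ} (S a b : Finset (Fin n)) : W S (symmDiff a b) = W S a * W S b := by
  unfold W
  rw [← prod_mul_distrib]
  refine prod_congr rfl fun i _ => ?_
  by_cases h1 : i ∈ a <;> by_cases h2 : i ∈ b <;> simp [mem_symmDiff, h1, h2]

theorem sum_W {n : ℕ} (c : Finset (Fin n)) :
    ∑ S : Finset (Fin n), W S c = if c = ∅ then (2 : ℝ) ^ n else 0 := by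
  have h := prod_add (fun i : Fin n => if i ∈ c then (-1 : ℝ) else 1) (fun _ => (1 : ℝ)) univ
  simp only [prod_const_one, mul_one, powerset_univ] at h
  have h2 : ∑ S : Finset (Fin n), W S c = ∏ i : Fin n, ((if i ∈ c then (-1 : ℝ) else 1) + 1) :=
    h.symm
  rw [h2]
  by_cases hc : c = ∅
  · subst hc
    rw [if_pos rfl]
    simp
    norm_num
  · rw [if_neg hc]
    obtain ⟨i, hi⟩ := nonempty_iff_ne_empty.2 hc
    exact prod_eq_zero (mem_univ i) (by simp [hi])

theorem W_empty {n : ℕ} (a : Finset (Fin n)) : W ∅ a = 1 := by simp [W]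

/-- The Krawtchouk sum. -/
noncomputable def Kr {n : ℕ} (r : ℕ) (S : Finset (Fin n)) : ℝ :=
  ∑ e ∈ powersetCard r univ, W S e

theorem Kr_eq {n : ℕ} (r : ℕ) (S : Finset (Fin n)) :
    Kr r S = (P S.card (n - S.card)).coeff r := by
  have h := prod_add (fun i : Fin n => C (if i ∈ S then (-1 : ℝ) else 1) * X) (fun _ => (1 : ℝ[X]))
    univ
  simp only [prod_const_one, mul_one, powerset_univ] at h
  have h1 : ∏ i : Fin n, (C (if i ∈ S then (-1 : ℝ) else 1) * X + 1) = P S.card (n - S.card) := by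
    have e1 : ∀ i : Fin n, (C (if i ∈ S then (-1 : ℝ) else 1) * X + 1 : ℝ[X])
        = if i ∈ S then (1 - X) else (1 + X) := by
      intro i
      by_cases hi : i ∈ S
      · simp [hi]; ring
      · simp [hi]; ring
    rw [prod_congr rfl (fun i _ => e1 i), prod_ite]
    simp only [prod_const]
    unfold P
    congr 2
    · congr 1
      ext i; simp
    · have e2 : (univ.filter (fun i => i ∉ S)) = Sᶜ := by ext i; simp
      rw [e2, card_compl, Fintype.card_fin]
  rw [h1] at h
  rw [h, finsetSum_coeff]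
  have e3 : ∀ t : Finset (Fin n), (∏ i ∈ t, (C (if i ∈ S then (-1 : ℝ) else 1) * X)).coeff r
      = if t.card = r then W S t else 0 := by
    intro t
    rw [prod_mul_distrib, prod_const, ← map_prod, coeff_C_mul, coeff_X_pow]
    by_cases ht : t.card = r
    · rw [if_pos ht, if_pos ht.symm, mul_one, W_comm]; rfl
    · rw [if_neg ht, if_neg (Ne.symm ht), mul_zero]
  rw [sum_congr rfl (fun t _ => e3 t), ← sum_filter]
  unfold Kr
  refine sum_congr ?_ fun _ _ => rfl
  ext t
  simp [mem_powersetCard]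

/-- the Fourier transform of a set -/
noncomputable def hat {n : ℕ} (D : Finset (Finset (Fin n))) (S : Finset (Fin n)) : ℝ :=
  ∑ a ∈ D, W S a

theorem sum_hat_sq_mul {n : ℕ} (D : Finset (Finset (Fin n))) (r : ℕ) :
    ∑ S, hat D S ^ 2 * Kr r S =
      2 ^ n * (((D ×ˢ D).filter (fun p => (symmDiff p.1 p.2).card = r)).card : ℝ) := by
  have h1 : ∀ S : Finset (Fin n), hat D S ^ 2 * Kr r S =
      ∑ e ∈ powersetCard r univ, ∑ p ∈ D ×ˢ D, W S (symmDiff (symmDiff p.1 p.2) e) := by
    intro S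
    unfold hat Kr
    rw [sq, sum_mul_sum, ← sum_product', mul_comm, sum_mul]
    refine sum_congr rfl fun e _ => ?_
    rw [mul_sum]
    refine sum_congr rfl fun p _ => ?_
    rw [W_symmDiff, W_symmDiff]
    ring
  rw [sum_congr rfl (fun S _ => h1 S), sum_comm]
  have h2 : ∀ e ∈ powersetCard r (univ : Finset (Fin n)),
      ∑ S, ∑ p ∈ D ×ˢ D, W S (symmDiff (symmDiff p.1 p.2) e) =
      ∑ p ∈ D ×ˢ D, if symmDiff p.1 p.2 = e then (2 : ℝ) ^ n else 0 := by
    intro e _
    rw [sum_comm]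
    refine sum_congr rfl fun p _ => ?_
    rw [sum_W]
    congr 1
    rw [← bot_eq_empty, symmDiff_eq_bot]
  rw [sum_congr rfl h2, sum_comm]
  have h3 : ∀ p ∈ D ×ˢ D, ∑ e ∈ powersetCard r (univ : Finset (Fin n)),
      (if symmDiff p.1 p.2 = e then (2 : ℝ) ^ n else 0) =
      if (symmDiff p.1 p.2).card = r then (2 : ℝ) ^ n else 0 := by
    intro p _
    rw [sum_ite_eq]
    simp [mem_powersetCard]
  rw [sum_congr rfl h3, ← sum_filter, sum_const, nsmul_eq_mul, mul_comm]

theorem sum_hat_sq {n : ℕ} (D : Finset (Finset (Fin n))) :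
    ∑ S, hat D S ^ 2 = 2 ^ n * (D.card : ℝ) := by
  have h := sum_hat_sq_mul D 0
  have h0 : ∀ S : Finset (Fin n), Kr 0 S = 1 := by
    intro S
    simp [Kr, W]
  simp only [h0, mul_one] at h
  rw [h]
  congr 2
  have : (D ×ˢ D).filter (fun p => (symmDiff p.1 p.2).card = 0) = D.image (fun a => (a, a)) := by
    ext ⟨a, b⟩
    simp only [mem_filter, mem_product, mem_image, Prod.mk.injEq, card_eq_zero]
    constructor
    · rintro ⟨⟨ha, -⟩, h⟩
      rw [← bot_eq_empty, symmDiff_eq_bot] at h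
      exact ⟨a, ha, rfl, h⟩
    · rintro ⟨c, hc, rfl, rfl⟩
      refine ⟨⟨hc, hc⟩, ?_⟩
      rw [symmDiff_self]; rfl
  rw [this, card_image_of_injective _ (fun a b h => (Prod.mk.inj h).1)]

/-- Number of pairs at distance `r`. -/
theorem pairs_ge (r : ℕ) (hr : 1 ≤ r) (hev : Even r) (D : Finset (Finset (Fin (1024 * r)))) :
    ((1024 * r).choose r : ℝ) * ((D.card : ℝ) ^ 2 / 2 ^ (1024 * r) - D.card / 2 ^ r) ≤
      (((D ×ˢ D).filter (fun p => (symmDiff p.1 p.2).card = r)).card : ℝ) := by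
  have hbound : ∀ S : Finset (Fin (1024 * r)),
      -(((1024 * r).choose r : ℝ) / 2 ^ r) ≤ Kr r S := by
    intro S
    rw [Kr_eq]
    have := card_le_univ S
    rw [Fintype.card_fin] at this
    exact coeff_ge _ _ r hr hev (by omega)
  have h0 : Kr r (∅ : Finset (Fin (1024 * r))) = ((1024 * r).choose r : ℝ) := by
    simp [Kr, W]
  have hD0 : hat D ∅ = D.card := by simp [hat, W]
  have h1 := sum_hat_sq_mul D r
  have h2 := sum_hat_sq D
  have h3 : ∑ S ∈ univ.erase (∅ : Finset (Fin (1024 * r))), hat D S ^ 2 * Kr r S ≥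
      ∑ S ∈ univ.erase (∅ : Finset (Fin (1024 * r))), hat D S ^ 2 *
        (-(((1024 * r).choose r : ℝ) / 2 ^ r)) :=
    sum_le_sum fun S _ => mul_le_mul_of_nonneg_left (hbound S) (sq_nonneg _)
  rw [← sum_mul] at h3
  rw [← add_sum_erase _ _ (mem_univ (∅ : Finset (Fin (1024 * r)))), h0, hD0] at h1
  rw [← add_sum_erase _ _ (mem_univ (∅ : Finset (Fin (1024 * r)))), hD0] at h2
  set Z := ∑ S ∈ univ.erase (∅ : Finset (Fin (1024 * r))), hat D S ^ 2 with hZ
  have hZle : Z ≤ 2 ^ (1024 * r) * (D.card : ℝ) := by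
    have : (0 : ℝ) ≤ (D.card : ℝ) ^ 2 := sq_nonneg _
    linarith
  have hc0 : (0 : ℝ) ≤ ((1024 * r).choose r : ℝ) / 2 ^ r := by positivity
  have h4 : (D.card : ℝ) ^ 2 * ((1024 * r).choose r : ℝ) -
      2 ^ (1024 * r) * (D.card : ℝ) * (((1024 * r).choose r : ℝ) / 2 ^ r) ≤
      2 ^ (1024 * r) * (((D ×ˢ D).filter (fun p => (symmDiff p.1 p.2).card = r)).card : ℝ) := by
    rw [← h1]
    have := mul_le_mul_of_nonneg_right hZle hc0
    linarith
  have hp : (0 : ℝ) < 2 ^ (1024 * r) := by positivity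
  rw [← mul_le_mul_iff_right₀ hp]
  refine le_trans (le_of_eq ?_) h4
  field_simp

/-! ### Boxes -/

theorem card_pairs {n : ℕ} (r : ℕ) :
    ((univ : Finset (Finset (Fin n) × Finset (Fin n))).filter
      (fun p => (symmDiff p.1 p.2).card = r)).card ≤ 2 ^ n * n.choose r := by
  have h : ((univ : Finset (Finset (Fin n) × Finset (Fin n))).filter
      (fun p => (symmDiff p.1 p.2).card = r)) ⊆
      ((univ : Finset (Finset (Fin n))) ×ˢ powersetCard r univ).image
        (fun q => (q.1, symmDiff q.1 q.2)) := by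
    rintro ⟨a, b⟩ hp
    rw [mem_filter] at hp
    rw [mem_image]
    refine ⟨(a, symmDiff a b), ?_, ?_⟩
    · simp [mem_powersetCard, hp.2]
    · simp
  refine (card_le_card h).trans (card_image_le.trans (le_of_eq ?_))
  rw [card_product, card_powersetCard, card_univ, Fintype.card_finset, Fintype.card_fin,
    card_univ, Fintype.card_fin]

theorem box (n r : ℕ) (hrn : r ≤ n) (hpairs : ∀ D : Finset (Finset (Fin n)),
      (n.choose r : ℝ) * ((D.card : ℝ) ^ 2 / 2 ^ n - D.card / 2 ^ r) ≤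
      (((D ×ˢ D).filter (fun p => (symmDiff p.1 p.2).card = r)).card : ℝ))
    (k : ℕ) : ∀ δ : ℝ, 0 < δ →
    1 / 2 ^ r ≤ (δ / 2) ^ (2 ^ k) → ∀ D : Finset (Fin k → Finset (Fin n)),
    δ * (2 ^ n) ^ k ≤ D.card →
    ∃ a b : Fin k → Finset (Fin n), (∀ j, (symmDiff (a j) (b j)).card = r) ∧
      ∀ x : Fin k → Bool, (fun j => if x j then b j else a j) ∈ D := by
  classical
  induction k with
  | zero =>
    intro δ hδ _ D hD
    have hpos : 0 < D.card := by
      have : (0 : ℝ) < D.card := lt_of_lt_of_le (by positivity) hD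
      exact_mod_cast this
    obtain ⟨d, hd⟩ := card_pos.1 hpos
    refine ⟨d, d, fun j => j.elim0, fun x => ?_⟩
    have : (fun j => if x j then d j else d j) = d := by funext j; exact j.elim0
    rw [this]; exact hd
  | succ k ih =>
    intro δ hδ hτ D hD
    have hM : (0 : ℝ) < 2 ^ n := by positivity
    have hMk : (0 : ℝ) < (2 ^ n) ^ k := by positivity
    have hcardF : Fintype.card (Fin k → Finset (Fin n)) = (2 ^ n) ^ k := by
      rw [Fintype.card_fun, Fintype.card_finset, Fintype.card_fin, Fintype.card_fin]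
    have hcardF' : Fintype.card (Fin (k + 1) → Finset (Fin n)) = (2 ^ n) ^ (k + 1) := by
      rw [Fintype.card_fun, Fintype.card_finset, Fintype.card_fin, Fintype.card_fin]
    have hδ1 : δ ≤ 1 := by
      have h1 : (D.card : ℝ) ≤ (2 ^ n) ^ (k + 1) := by
        have := card_le_univ D
        rw [hcardF'] at this
        exact_mod_cast this
      have h2 : (0 : ℝ) < (2 ^ n) ^ (k + 1) := by positivity
      by_contra hcon
      push Not at hcon
      nlinarith
    set τ : ℝ := 1 / 2 ^ r with hτdef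
    have hτ0 : 0 < τ := by positivity
    have hτ2 : τ ≤ (δ / 2) ^ 2 := by
      refine hτ.trans ?_
      apply pow_le_pow_of_le_one (by positivity) (by linarith)
      calc 2 = 2 ^ 1 := rfl
        _ ≤ 2 ^ (k + 1) := Nat.pow_le_pow_right (by norm_num) (by omega)
    have hτ3 : τ < δ / 2 := by nlinarith
    -- slices
    let sl : (Fin k → Finset (Fin n)) → Finset (Finset (Fin n)) := fun y => univ.filter (fun a => (Fin.cons a y : Fin (k + 1) → Finset (Fin n)) ∈ D)
    let DD : Finset (Fin n) × Finset (Fin n) → Finset (Fin k → Finset (Fin n)) := fun p => univ.filter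
      (fun y => (Fin.cons p.1 y : Fin (k + 1) → Finset (Fin n)) ∈ D ∧ (Fin.cons p.2 y : Fin (k + 1) → Finset (Fin n)) ∈ D)
    let Rr : Finset (Finset (Fin n) × Finset (Fin n)) := univ.filter (fun p => (symmDiff p.1 p.2).card = r)
    have hsum1 : ∑ y, ((sl y).card : ℝ) = D.card := by
      have : ∑ y, (sl y).card = D.card := by
        have h1 : D.card = ∑ y, (D.filter (fun z => Fin.tail z = y)).card :=
          card_eq_sum_card_fiberwise (fun z _ => mem_univ _)
        rw [h1]
        refine sum_congr rfl fun y _ => ?_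
        refine card_bij (fun a _ => (Fin.cons a y : Fin (k + 1) → Finset (Fin n))) ?_ ?_ ?_
        · intro a ha
          rw [mem_filter] at ha ⊢
          exact ⟨ha.2, Fin.tail_cons _ _⟩
        · intro a _ b _ hab
          have := congrFun hab 0
          simpa using this
        · intro z hz
          rw [mem_filter] at hz
          refine ⟨z 0, ?_, ?_⟩
          · rw [mem_filter]
            refine ⟨mem_univ _, ?_⟩
            rw [← hz.2, Fin.cons_self_tail]
            exact hz.1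
          · rw [← hz.2, Fin.cons_self_tail]
      exact_mod_cast this
    have hsum2 : ∑ p ∈ Rr, ((DD p).card : ℝ) =
        ∑ y, ((((sl y) ×ˢ (sl y)).filter (fun p => (symmDiff p.1 p.2).card = r)).card : ℝ) := by
      have e1 : ∀ p ∈ Rr, ((DD p).card : ℝ) = ∑ y, if ((Fin.cons p.1 y : Fin (k + 1) → Finset (Fin n)) ∈ D ∧
          (Fin.cons p.2 y : Fin (k + 1) → Finset (Fin n)) ∈ D) then (1 : ℝ) else 0 := by
        intro p _
        rw [← sum_filter, sum_const, nsmul_eq_mul, mul_one]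
      rw [sum_congr rfl e1, sum_comm]
      refine sum_congr rfl fun y _ => ?_
      rw [← sum_filter, sum_const, nsmul_eq_mul, mul_one]
      congr 2
      ext p
      simp only [Rr, sl, mem_filter, mem_univ, true_and, mem_product]
      tauto
    have hlow : ((n.choose r : ℝ)) * ((D.card : ℝ) ^ 2 / (2 ^ n * (2 ^ n) ^ k) - D.card * τ) ≤
        ∑ p ∈ Rr, ((DD p).card : ℝ) := by
      rw [hsum2]
      have h1 : ∀ y : Fin k → Finset (Fin n), (n.choose r : ℝ) * (((sl y).card : ℝ) ^ 2 / 2 ^ n -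
          (sl y).card * τ) ≤
          ((((sl y) ×ˢ (sl y)).filter (fun p => (symmDiff p.1 p.2).card = r)).card : ℝ) := by
        intro y
        have := hpairs (sl y)
        rw [hτdef]
        refine le_trans (le_of_eq ?_) this
        rw [mul_one_div]
      refine le_trans ?_ (sum_le_sum fun y _ => h1 y)
      rw [← mul_sum, sum_sub_distrib, ← sum_mul, hsum1, ← sum_div]
      apply mul_le_mul_of_nonneg_left _ (Nat.cast_nonneg _)
      apply sub_le_sub_right
      have hcs := sq_sum_le_card_mul_sum_sq (s := (univ : Finset (Fin k → Finset (Fin n))))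
        (f := fun y => ((sl y).card : ℝ))
      rw [hsum1, card_univ, hcardF] at hcs
      push_cast at hcs
      rw [div_le_div_iff₀ (by positivity) hM]
      nlinarith
    have hRcard : (Rr.card : ℝ) ≤ 2 ^ n * (n.choose r : ℝ) := by
      have := card_pairs (n := n) r
      exact_mod_cast this
    -- choose a pair
    have hex : ∃ p ∈ Rr, δ ^ 2 / 2 * (2 ^ n) ^ k ≤ ((DD p).card : ℝ) := by
      by_contra hcon
      push Not at hcon
      have h1 : ∑ p ∈ Rr, ((DD p).card : ℝ) ≤ Rr.card * (δ ^ 2 / 2 * (2 ^ n) ^ k) := by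
        rw [← nsmul_eq_mul]
        exact sum_le_card_nsmul _ _ _ fun p hp => (hcon p hp).le
      have h2 : ∑ p ∈ Rr, ((DD p).card : ℝ) ≤
          (2 ^ n * (n.choose r : ℝ)) * (δ ^ 2 / 2 * (2 ^ n) ^ k) :=
        h1.trans (mul_le_mul_of_nonneg_right hRcard (by positivity))
      have hch : (0 : ℝ) < (n.choose r : ℝ) := by
        have : 0 < n.choose r := Nat.choose_pos (by omega)
        exact_mod_cast this
      set M : ℝ := 2 ^ n * (2 ^ n) ^ k with hMdef
      have hMpos : 0 < M := by positivity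
      have h3 : (n.choose r : ℝ) * ((D.card : ℝ) ^ 2 / M - D.card * τ) ≤
          (n.choose r : ℝ) * (δ ^ 2 / 2 * M) := by
        refine (hlow.trans h2).trans (le_of_eq ?_)
        rw [hMdef]; ring
      have h4 := le_of_mul_le_mul_left h3 hch
      -- with `μ = |D| / M ≥ δ`
      set μ : ℝ := D.card / M with hμ
      have hDμ : (D.card : ℝ) = μ * M := by rw [hμ]; field_simp
      have hμδ : δ ≤ μ := by
        rw [hμ, le_div_iff₀ hMpos, hMdef]
        refine le_trans (le_of_eq ?_) hD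
        rw [pow_succ]; ring
      rw [hDμ] at h4
      have h5 : (μ * M) ^ 2 / M = μ ^ 2 * M := by field_simp
      rw [h5] at h4
      have h6 : (μ ^ 2 - μ * τ) * M ≤ (δ ^ 2 / 2) * M := by linarith
      have h7 := le_of_mul_le_mul_right h6 hMpos
      nlinarith
    obtain ⟨⟨a0, b0⟩, hp, hcard⟩ := hex
    rw [mem_filter] at hp
    have hτ' : 1 / 2 ^ r ≤ (δ ^ 2 / 2 / 2) ^ (2 ^ k) := by
      refine hτ.trans (le_of_eq ?_)
      rw [pow_succ 2 k, mul_comm (2 ^ k) 2, pow_mul]
      congr 1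
      ring
    obtain ⟨a, b, hab, hx⟩ := ih (δ ^ 2 / 2) (by positivity) hτ' (DD (a0, b0)) hcard
    refine ⟨Fin.cons a0 a, Fin.cons b0 b, ?_, ?_⟩
    · intro j
      refine Fin.cases ?_ (fun i => ?_) j
      · simpa using hp.2
      · simpa using hab i
    · intro x
      have h1 := hx (fun i => x i.succ)
      rw [mem_filter] at h1
      by_cases h0 : x 0
      · convert h1.2.2 using 1
        funext j
        refine Fin.cases ?_ (fun i => ?_) j
        · simp [h0]
        · simp
      · convert h1.2.1 using 1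
        funext j
        refine Fin.cases ?_ (fun i => ?_) j
        · simp [h0]
        · simp

/-! ### Hamming cubes -/

/-- The points of `{0,1} ^ (k n)` from `k` blocks of length `n`. -/
def E (k n : ℕ) (A : Fin k → Finset (Fin n)) : Fin (k * n) → Bool :=
  fun t => decide ((finProdFinEquiv.symm t).2 ∈ A (finProdFinEquiv.symm t).1)

theorem E_bijective (k n : ℕ) : Function.Bijective (E k n) := by
  constructor
  · intro A B h
    funext j
    ext i
    have := congrFun h (finProdFinEquiv (j, i))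
    simp only [E, Equiv.symm_apply_apply] at this
    simpa using this
  · intro x
    refine ⟨fun j => univ.filter (fun i => x (finProdFinEquiv (j, i)) = true), ?_⟩
    funext t
    simp only [E, mem_filter, mem_univ, true_and, Prod.mk.eta, Equiv.apply_symm_apply]
    cases h : x t <;> simp

theorem hammingDist_E (k n : ℕ) (A B : Fin k → Finset (Fin n)) :
    hammingDist (E k n A) (E k n B) = ∑ j, (symmDiff (A j) (B j)).card := by
  unfold hammingDist
  have h1 : (univ.filter fun t => E k n A t ≠ E k n B t).card =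
      (univ.filter fun p : Fin k × Fin n => p.2 ∈ symmDiff (A p.1) (B p.1)).card := by
    refine card_bij (fun t _ => finProdFinEquiv.symm t) ?_ ?_ ?_
    · intro t ht
      rw [mem_filter] at ht ⊢
      refine ⟨mem_univ _, ?_⟩
      have h2 := ht.2
      simp only [E, ne_eq, decide_eq_decide] at h2
      rw [mem_symmDiff]
      tauto
    · intro a _ b _ h
      exact finProdFinEquiv.symm.injective h
    · intro p hp
      rw [mem_filter] at hp
      refine ⟨finProdFinEquiv p, ?_, by simp⟩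
      rw [mem_filter]
      refine ⟨mem_univ _, ?_⟩
      have h2 := hp.2
      rw [mem_symmDiff] at h2
      simp only [E, ne_eq, decide_eq_decide, Equiv.symm_apply_apply]
      tauto
  rw [h1, card_filter, ← univ_product_univ, sum_product]
  refine sum_congr rfl fun j _ => ?_
  rw [← card_filter]
  congr 1
  ext i
  simp

/-- `f` is a rescaled isometry of Hamming cubes. -/
def Undistorted {k N : ℕ} (f : (Fin k → Bool) → (Fin N → Bool)) : Prop :=
  ∃ ρ : ℝ, 0 < ρ ∧ ∀ x y, (hammingDist (f x) (f y) : ℝ) = ρ * hammingDist x y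

/-- Every subset of `{0,1} ^ N` of density at least `δ` contains an undistorted copy of
`{0,1} ^ k`. -/
def Forces (δ : ℝ) (k N : ℕ) : Prop :=
  ∀ D : Finset (Fin N → Bool), δ * 2 ^ N ≤ (D.card : ℝ) →
    ∃ f : (Fin k → Bool) → (Fin N → Bool), Undistorted f ∧ ∀ x, f x ∈ D

/-- The number `Emb(1, δ, k)`. -/
noncomputable def Emb (δ : ℝ) (k : ℕ) : ℕ := sInf {N : ℕ | Forces δ k N}

theorem forces (δ : ℝ) (hδ : 0 < δ) (k r : ℕ) (hr : 1 ≤ r) (hev : Even r)
    (h : 1 / 2 ^ r ≤ (δ / 2) ^ (2 ^ k)) : Forces δ k (k * (1024 * r)) := by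
  classical
  intro D hD
  set D' : Finset (Fin k → Finset (Fin (1024 * r))) := univ.filter (fun A => E k _ A ∈ D) with hD'
  have hcard : D'.card = D.card := by
    refine card_bij (fun A _ => E k _ A) ?_ ?_ ?_
    · intro A hA
      rw [hD', mem_filter] at hA
      exact hA.2
    · intro A _ B _ hAB
      exact (E_bijective k _).1 hAB
    · intro x hx
      obtain ⟨A, hA⟩ := (E_bijective k (1024 * r)).2 x
      refine ⟨A, ?_, hA⟩
      rw [hD', mem_filter]
      exact ⟨mem_univ _, by rw [hA]; exact hx⟩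
  have hD2 : δ * (2 ^ (1024 * r)) ^ k ≤ (D'.card : ℝ) := by
    rw [hcard, ← pow_mul, mul_comm (1024 * r) k]
    exact hD
  obtain ⟨a, b, hab, hx⟩ := box (1024 * r) r (by omega) (pairs_ge r hr hev) k δ hδ h D' hD2
  refine ⟨fun x => E k _ (fun j => if x j then b j else a j), ⟨r, by exact_mod_cast hr, ?_⟩, ?_⟩
  · intro x y
    rw [hammingDist_E]
    have h1 : ∀ j, (symmDiff (if x j then b j else a j) (if y j then b j else a j)).card =
        if x j ≠ y j then r else 0 := by
      intro j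
      have h2 : (symmDiff (b j) (a j)).card = r := by rw [symmDiff_comm]; exact hab j
      cases x j <;> cases y j <;> simp [hab j, h2]
    rw [sum_congr rfl (fun j _ => h1 j), ← sum_filter, sum_const, smul_eq_mul]
    push_cast
    rw [mul_comm]
    rfl
  · intro x
    have := hx x
    rw [hD', mem_filter] at this
    exact this.2

theorem exists_r (δ : ℝ) (hδ : 0 < δ) (hδ1 : δ < 1) (k : ℕ) : ∃ r : ℕ, 1 ≤ r ∧ Even r ∧
    1 / 2 ^ r ≤ (δ / 2) ^ (2 ^ k) ∧ (r : ℝ) ≤ 2 ^ k * Real.logb 2 (2 / δ) + 2 := by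
  set L : ℝ := 2 ^ k * Real.logb 2 (2 / δ) with hL
  have hlog : 0 < Real.logb 2 (2 / δ) := by
    apply Real.logb_pos (by norm_num)
    rw [one_lt_div hδ]
    linarith
  have hLpos : 0 < L := by positivity
  refine ⟨2 * ⌈L / 2⌉₊, ?_, even_two_mul _, ?_, ?_⟩
  · have : 0 < ⌈L / 2⌉₊ := Nat.ceil_pos.2 (by positivity)
    omega
  · have h1 : L ≤ ((2 * ⌈L / 2⌉₊ : ℕ) : ℝ) := by
      push_cast
      have := Nat.le_ceil (L / 2)
      linarith
    have h2 : (2 / δ) ^ (2 ^ k) ≤ (2 : ℝ) ^ (2 * ⌈L / 2⌉₊) := by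
      have e1 : ((2 : ℝ) / δ) ^ (2 ^ k) = (2 : ℝ) ^ L := by
        rw [hL, mul_comm, Real.rpow_mul (by norm_num), Real.rpow_logb (by norm_num) (by norm_num)
          (by positivity), ← Nat.cast_ofNat, ← Nat.cast_pow, Real.rpow_natCast]
      rw [e1, ← Real.rpow_natCast]
      exact Real.rpow_le_rpow_of_exponent_le (by norm_num) h1
    have h3 : (δ / 2) ^ (2 ^ k) = 1 / (2 / δ) ^ (2 ^ k) := by
      rw [div_pow, div_pow]
      field_simp
    rw [h3]
    exact one_div_le_one_div_of_le (by positivity) h2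
  · push_cast
    have := Nat.ceil_lt_add_one (show 0 ≤ L / 2 by positivity)
    linarith

/-- Main result.  For all `k` and `0 < δ < 1` the number `Emb(1, δ, k)` has its defining property
and is at most `1024 k (2 ^ k log₂ (2 / δ) + 2)`; in particular `Emb(1, δ, k) ≤ e ^ (11 k)
log (1 / δ)` for `δ ≤ 1 / 2`. -/
theorem result :
    (∀ (k : ℕ) (δ : ℝ), 0 < δ → δ < 1 → Forces δ k (Emb δ k) ∧
      (Emb δ k : ℝ) ≤ 1024 * k * (2 ^ k * Real.logb 2 (2 / δ) + 2)) ∧
    (∃ C : ℝ, 0 < C ∧ ∀ (k : ℕ) (δ : ℝ), 0 < δ → δ ≤ 1 / 2 →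
      (Emb δ k : ℝ) ≤ Real.exp (C * k) * Real.log (1 / δ)) := by
  have main : ∀ (k : ℕ) (δ : ℝ), 0 < δ → δ < 1 → Forces δ k (Emb δ k) ∧
      (Emb δ k : ℝ) ≤ 1024 * k * (2 ^ k * Real.logb 2 (2 / δ) + 2) := by
    intro k δ hδ hδ1
    obtain ⟨r, hr, hev, h1, h2⟩ := exists_r δ hδ hδ1 k
    have hf := forces δ hδ k r hr hev h1
    refine ⟨Nat.sInf_mem (s := {N : ℕ | Forces δ k N}) ⟨_, hf⟩, ?_⟩
    have h3 : Emb δ k ≤ k * (1024 * r) := Nat.sInf_le hf
    have h4 : (Emb δ k : ℝ) ≤ k * (1024 * r) := by exact_mod_cast h3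
    refine h4.trans ?_
    have hk : (0 : ℝ) ≤ k := Nat.cast_nonneg k
    have := mul_le_mul_of_nonneg_left h2 (by positivity : (0 : ℝ) ≤ 1024 * k)
    linarith
  refine ⟨main, 11, by norm_num, ?_⟩
  intro k δ hδ hδ2
  obtain ⟨-, hb⟩ := main k δ hδ (by linarith)
  have hlog2 : 0 < Real.log 2 := Real.log_pos (by norm_num)
  have hl2 : (0.69 : ℝ) < Real.log 2 := by have := Real.log_two_gt_d9; linarith
  set ℓ := Real.log (1 / δ) with hℓ
  have hℓ2 : Real.log 2 ≤ ℓ := by
    rw [hℓ]
    apply Real.log_le_log (by norm_num)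
    rw [le_div_iff₀ hδ]
    linarith
  have hlogb : Real.logb 2 (2 / δ) = 1 + ℓ / Real.log 2 := by
    rw [Real.logb, Real.log_div (by norm_num) hδ.ne', hℓ, one_div, Real.log_inv]
    field_simp
    ring
  have h1 : Real.logb 2 (2 / δ) ≤ 2 * ℓ / 0.69 := by
    rw [hlogb]
    have e1 : ℓ / Real.log 2 ≤ ℓ / 0.69 := by
      apply div_le_div_of_nonneg_left (by linarith) (by norm_num) hl2.le
    have e2 : (1 : ℝ) ≤ ℓ / 0.69 := by
      rw [le_div_iff₀ (by norm_num)]; linarith
    have e3 : 2 * ℓ / 0.69 = ℓ / 0.69 + ℓ / 0.69 := by ring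
    rw [e3]; linarith
  have hℓpos : 0 < ℓ := by linarith
  have hp1 : (1 : ℝ) ≤ 2 ^ k := one_le_pow₀ (by norm_num)
  have h2 : 2 ^ k * Real.logb 2 (2 / δ) + 2 ≤ 2 ^ k * (6 * ℓ) := by
    have e1 : 2 ^ k * Real.logb 2 (2 / δ) ≤ 2 ^ k * (2 * ℓ / 0.69) :=
      mul_le_mul_of_nonneg_left h1 (by positivity)
    have e2 : (2 : ℝ) ≤ 2 ^ k * (3 * ℓ) := by nlinarith
    have e3 : 2 * ℓ / 0.69 ≤ 3 * ℓ := by
      rw [div_le_iff₀ (by norm_num)]; linarith
    have e4 : (2 : ℝ) ^ k * (2 * ℓ / 0.69) ≤ 2 ^ k * (3 * ℓ) :=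
      mul_le_mul_of_nonneg_left e3 (by positivity)
    nlinarith
  rcases Nat.eq_zero_or_pos k with hk | hk
  · subst hk
    simp only [Nat.cast_zero, mul_zero, zero_mul, Real.exp_zero, one_mul] at hb ⊢
    exact hb.trans hℓpos.le
  · have hk2 : (k : ℝ) ≤ 2 ^ k := by exact_mod_cast (Nat.lt_two_pow_self (n := k)).le
    have h3 : (Emb δ k : ℝ) ≤ 6144 * (2 ^ k * 2 ^ k) * ℓ := by
      refine hb.trans ?_
      calc 1024 * (k : ℝ) * (2 ^ k * Real.logb 2 (2 / δ) + 2) ≤ 1024 * k * (2 ^ k * (6 * ℓ)) :=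
            mul_le_mul_of_nonneg_left h2 (by positivity)
        _ ≤ 1024 * 2 ^ k * (2 ^ k * (6 * ℓ)) := by
            apply mul_le_mul_of_nonneg_right _ (by positivity)
            linarith
        _ = 6144 * (2 ^ k * 2 ^ k) * ℓ := by ring
    have h4 : (6144 : ℝ) * (2 ^ k * 2 ^ k) ≤ Real.exp (11 * k) := by
      have e1 : (24576 : ℝ) ≤ Real.exp 11 := by
        have := Real.exp_one_gt_d9
        have e2 : Real.exp 11 = Real.exp 1 ^ 11 := by
          rw [← Real.exp_nat_mul]; norm_num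
        rw [e2]
        calc (24576 : ℝ) ≤ 2.7 ^ 11 := by norm_num
          _ ≤ Real.exp 1 ^ 11 := pow_le_pow_left₀ (by norm_num) (by linarith) 11
      have e3 : Real.exp (11 * k) = Real.exp 11 ^ k := by
        rw [← Real.exp_nat_mul]; ring_nf
      rw [e3]
      calc (6144 : ℝ) * (2 ^ k * 2 ^ k) = 6144 * 4 ^ k := by
            rw [← mul_pow]; norm_num
        _ ≤ 6144 ^ k * 4 ^ k := by
            apply mul_le_mul_of_nonneg_right _ (by positivity)
            exact le_self_pow₀ (by norm_num) (by omega)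
        _ = 24576 ^ k := by rw [← mul_pow]; norm_num
        _ ≤ Real.exp 11 ^ k := pow_le_pow_left₀ (by norm_num) e1 k
    exact h3.trans (mul_le_mul_of_nonneg_right h4 hℓpos.le)

end Pool.Agent.Results.MP_c810be_co.SingleExponential
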